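import Pool.Agent.helper16.EXC.Spec3

/-!
# Row `en3:ZGA`: three conjugates generate `conj z`
-/

set_option autoImplicit false

open Finset

namespace Pool.Agent.EXC

theorem ZGA_conj {G : Type} [Group G] (x : MulAut G) (t : G) :
    x * (MulAut.conj t * x * (MulAut.conj t)⁻¹)⁻¹ = MulAut.conj (x t * t⁻¹) := by
  have h : x * MulAut.conj t * x⁻¹ = MulAut.conj (x t) := by
    refine MulEquiv.ext fun g => ?_
    rw [MulAut.mul_apply, MulAut.mul_apply, MulAut.conj_apply, MulAut.conj_apply, map_mul, map_mul, map_inv,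
      MulAut.apply_inv_self]
  rw [map_mul, map_inv, ← h]
  group

/-- Row `en3:ZGA`. -/
theorem ZGA : ZGA_stmt := by
  intro G _ _ x t s z r hz hr
  have hconj : ∀ a : G, (MulAut.conj a : MulAut G) ∈
      Subgroup.closure (insert x (Set.range (MulAut.conj : G →* MulAut G))) := fun a =>
    Subgroup.subset_closure (Set.mem_insert_of_mem _ ⟨a, rfl⟩)
  refine ⟨by norm_num, ![1, MulAut.conj t, MulAut.conj s], ?_, ?_⟩
  · intro i
    fin_cases i
    · exact one_mem _
    · exact hconj t
    · exact hconj s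
  · set H : Subgroup (MulAut G) := Subgroup.closure (Set.range fun i : Fin 3 =>
      (![1, MulAut.conj t, MulAut.conj s] : Fin 3 → MulAut G) i * x *
        ((![1, MulAut.conj t, MulAut.conj s] : Fin 3 → MulAut G) i)⁻¹) with hH
    have h0 : x ∈ H := by
      refine Subgroup.subset_closure ⟨0, ?_⟩
      simp
    have h1 : MulAut.conj t * x * (MulAut.conj t)⁻¹ ∈ H := Subgroup.subset_closure ⟨1, rfl⟩
    have h2 : MulAut.conj s * x * (MulAut.conj s)⁻¹ ∈ H := Subgroup.subset_closure ⟨2, rfl⟩
    have h3 : MulAut.conj (x t * t⁻¹) ∈ H := by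
      rw [← ZGA_conj]
      exact mul_mem h0 (inv_mem h1)
    have h4 : MulAut.conj (x s * s⁻¹) ∈ H := by
      rw [← ZGA_conj]
      exact mul_mem h0 (inv_mem h2)
    have h5 : Subgroup.closure {x t * t⁻¹, x s * s⁻¹} ≤ H.comap MulAut.conj := by
      rw [Subgroup.closure_le]
      rintro g (rfl | rfl)
      · exact h3
      · exact h4
    have h6 : MulAut.conj z ∈ H := h5 hz
    exact (hr _ (pow_orderOf_eq_one _)).trans (Subgroup.orderOf_dvd_natCard H h6)

end Pool.Agent.EXC
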